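import Pool.Agent.Helper29.ZR.Props
import Pool.Agent.Helper10.RC.Basic

/-!
# Packet ZR-RkS (MP_b55b7c_an, project ZR of helper29)
-/

open scoped ENNReal NNReal InnerProductSpace ComplexOrder
open Filter Topology

attribute [-instance] CStarMatrix.instAlgebra CStarMatrix.instModule CStarMatrix.instSMul
  CStarMatrix.instMulAction CStarMatrix.instDistribMulAction

noncomputable section
namespace RC
universe u

namespace H49

variable {A : Type u} [CStarAlgebra A] [PartialOrder A] [StarOrderedRing A]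
variable {ν : Type} [Fintype ν] [DecidableEq ν]

theorem cu_smul (x : CStarMatrix ν ν A) {r : ℝ} (hr : 0 ≤ r) : Cu (r • x) x := by
  intro ε hε
  refine ⟨Real.sqrt r • 1, ?_⟩
  rw [cm_conj_rsmul, cm_conj_one, cm_mul_rsmul, cm_mul_one, cm_rsmul_mul, cm_one_mul, smul_smul,
    Real.mul_self_sqrt hr, sub_self, norm_zero]
  exact hε

omit [DecidableEq ν] in
theorem conj_of_nonneg {c : CStarMatrix ν ν A} (hc : 0 ≤ c) : c.conjTranspose = c :=
  (IsSelfAdjoint.of_nonneg hc).star_eq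

theorem cu_conj (S : CStarMatrix ν ν A) {c : CStarMatrix ν ν A} (hc : 0 ≤ c) :
    Cu (c * S * c) S := by
  intro ε hε
  refine ⟨c, ?_⟩
  rw [conj_of_nonneg hc, sub_self, norm_zero]
  exact hε

theorem cu_sq {c : CStarMatrix ν ν A} (hc : 0 ≤ c) : Cu c (c * c) := by
  intro ε hε
  have hη : 0 < ε / 2 := by linarith
  have hsp : ∀ t ∈ spectrum ℝ c, 0 ≤ t := fun t ht => spectrum_nonneg_of_nonneg hc ht
  have hcont : ContinuousOn (fun t : ℝ => (Real.sqrt (t + ε / 2))⁻¹) (spectrum ℝ c) := by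
    refine ContinuousOn.inv₀ (by fun_prop) fun t ht => ?_
    exact (Real.sqrt_pos.2 (by linarith [hsp t ht])).ne'
  refine ⟨cfc (fun t : ℝ => (Real.sqrt (t + ε / 2))⁻¹) c, ?_⟩
  have h1 : (cfc (fun t : ℝ => (Real.sqrt (t + ε / 2))⁻¹) c).conjTranspose
      = cfc (fun t : ℝ => (Real.sqrt (t + ε / 2))⁻¹) c :=
    (cfc_predicate (R := ℝ) _ c : IsSelfAdjoint _).star_eq
  have h2 : cfc (fun t : ℝ => (Real.sqrt (t + ε / 2))⁻¹) c * (c * c)
      * cfc (fun t : ℝ => (Real.sqrt (t + ε / 2))⁻¹) c - c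
      = cfc (fun t : ℝ => (Real.sqrt (t + ε / 2))⁻¹ * (t * t) * (Real.sqrt (t + ε / 2))⁻¹ - t) c := by
    rw [cfc_sub _ _ c (by fun_prop) (by fun_prop), cfc_mul _ _ c (by fun_prop) (by fun_prop),
      cfc_mul _ _ c (by fun_prop) (by fun_prop), cfc_mul _ _ c (by fun_prop) (by fun_prop),
      cfc_id' ℝ c]
  rw [h1, h2]
  refine (norm_cfc_le hη.le fun t ht => ?_).trans_lt (by linarith)
  have ht0 := hsp t ht
  have hp : 0 < t + ε / 2 := by linarith
  have h3 : (Real.sqrt (t + ε / 2))⁻¹ * (t * t) * (Real.sqrt (t + ε / 2))⁻¹ - t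
      = -(ε / 2 * (t / (t + ε / 2))) := by
    have hs := Real.mul_self_sqrt hp.le
    have hs0 : Real.sqrt (t + ε / 2) ≠ 0 := (Real.sqrt_pos.2 hp).ne'
    have : (Real.sqrt (t + ε / 2))⁻¹ * (t * t) * (Real.sqrt (t + ε / 2))⁻¹
        = (t * t) / (Real.sqrt (t + ε / 2) * Real.sqrt (t + ε / 2)) := by
      field_simp
    rw [this, hs]
    field_simp
    ring
  rw [h3, norm_neg, Real.norm_eq_abs, abs_mul, abs_of_pos hη,
    abs_of_nonneg (div_nonneg ht0 hp.le)]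
  have : t / (t + ε / 2) ≤ 1 := (div_le_one hp).2 (by linarith)
  nlinarith

theorem nE_sa (δ : ℝ) (S : CStarMatrix ν ν A) : IsSelfAdjoint (nE δ S) :=
  cfc_predicate (R := ℝ) _ S

theorem nE_sq_nonneg (δ : ℝ) (S : CStarMatrix ν ν A) : 0 ≤ nE δ S * nE δ S := by
  have := mul_star_self_nonneg (nE δ S)
  rwa [(nE_sa δ S).star_eq] at this

theorem one_le {S : CStarMatrix ν ν A} (hS : 0 ≤ S) {δ : ℝ} (hδ : 0 < δ) :
    1 ≤ (2 : ℝ) • (nE δ S * nE δ S) + (4 / δ) • S := by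
  have hsa : IsSelfAdjoint S := IsSelfAdjoint.of_nonneg hS
  have e1 : (2 : ℝ) • (nE δ S * nE δ S) + (4 / δ) • S
      = cfc (fun t : ℝ => 2 * (max 0 (1 - t / δ) * max 0 (1 - t / δ)) + 4 / δ * t) S := by
    rw [cfc_add S (fun t : ℝ => 2 * (max 0 (1 - t / δ) * max 0 (1 - t / δ)))
        (fun t : ℝ => 4 / δ * t) (by fun_prop) (by fun_prop),
      cfc_const_mul 2 (fun t : ℝ => max 0 (1 - t / δ) * max 0 (1 - t / δ)) S (by fun_prop),
      cfc_const_mul (4 / δ) (fun t : ℝ => t) S (by fun_prop),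
      cfc_mul (fun t : ℝ => max 0 (1 - t / δ)) (fun t : ℝ => max 0 (1 - t / δ)) S (by fun_prop)
        (by fun_prop), cfc_id' ℝ S]
    rfl
  rw [e1, ← cfc_const_one ℝ S]
  refine cfc_mono (fun t ht => ?_) (by fun_prop) (by fun_prop)
  have ht0 := spectrum_nonneg_of_nonneg hS ht
  rcases le_total t (δ / 4) with h | h
  · have h1 : t / δ ≤ 1 / 4 := by
      rw [div_le_iff₀ hδ]; linarith
    have h2 : 3 / 4 ≤ max 0 (1 - t / δ) := le_max_of_le_right (by linarith)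
    have h3 : 0 ≤ 4 / δ * t := by positivity
    nlinarith
  · have h1 : 1 ≤ 4 / δ * t := by
      rw [div_mul_eq_mul_div, le_div_iff₀ hδ]; linarith
    have h2 := mul_self_nonneg (max 0 (1 - t / δ))
    linarith

end H49

theorem rkS (hLe : CuLeAddP.{u}) (hAdd : CuAddP.{u}) (hDs : QDsumP.{u}) (hMo : QMonoP.{u}) :
    RkSP.{u} := by
  intro A _ _ _ ν _ _ c S δ hc hS hδ
  have hcT := H49.conj_of_nonneg hc
  have pos : ∀ x : CStarMatrix ν ν A, 0 ≤ x → 0 ≤ c * x * c := fun x hx => by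
    have := cm_conj_nonneg c hx
    rwa [hcT] at this
  have hE := pos _ (H49.nE_sq_nonneg δ S)
  refine ⟨hE, fun σ => ?_⟩
  have hcc : 0 ≤ c * c := by
    have := cm_mul_conj_nonneg c
    rwa [hcT] at this
  have hcS := pos _ hS
  have h2E : 0 ≤ (2 : ℝ) • (c * (nE δ S * nE δ S) * c) := smul_nonneg (by norm_num) hE
  have h4 : (0 : ℝ) ≤ 4 / δ := by positivity
  have h4S : 0 ≤ (4 / δ) • (c * S * c) := smul_nonneg h4 hcS
  have hle : c * c ≤ (2 : ℝ) • (c * (nE δ S * nE δ S) * c) + (4 / δ) • (c * S * c)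
      + (0 : ℝ) • (1 : CStarMatrix ν ν A) := by
    have := cm_conj_le c (H49.one_le hS hδ)
    rw [hcT, mul_one, mul_add, add_mul, cm_mul_rsmul, cm_rsmul_mul, cm_mul_rsmul, cm_rsmul_mul]
      at this
    rw [zero_smul, add_zero]
    exact this
  have k1 := hMo A σ ν ν c (c * c) hc hcc (H49.cu_sq hc)
  have c2 := hLe A ν (c * c) _ 0 le_rfl hcc (add_nonneg h2E h4S) hle
  rw [cut_zero hcc] at c2
  have k2 := hMo A σ ν ν _ _ hcc (add_nonneg h2E h4S) c2
  have c3 := hAdd A ν _ _ 0 0 le_rfl le_rfl h2E h4S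
  rw [add_zero, cut_zero (add_nonneg h2E h4S), cut_zero h2E, cut_zero h4S] at c3
  obtain ⟨p1, p2⟩ := hDs A σ ν ν _ _ h2E h4S
  have k3 := hMo A σ ν (ν ⊕ ν) _ _ (add_nonneg h2E h4S) p1 c3
  have k4 := hMo A σ ν ν _ _ h2E hE (H49.cu_smul _ (by norm_num))
  have k5 := hMo A σ ν ν _ _ h4S hcS (H49.cu_smul _ h4)
  have k6 := hMo A σ ν ν _ _ hcS hS (H49.cu_conj S hc)
  linarith

end RC
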